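import Pool.Agent.Lib.MP_5d599c_lc.Osss

/-!
The compatibility theorem in terms of finite differences.
-/

open Finset

namespace Pool.Agent.Lib.MP_5d599c_lc

variable {ι : Type*} [DecidableEq ι] [Fintype ι]

theorem lowDeg_pi {m : ℕ} {e : ℕ} (f : Fin m → (ι → ZMod 2) → ℂ) (hf : ∀ k, LowDeg e (f k)) :
    LowDeg e (fun x => (fun k => f k x : Fin m → ℂ)) := by
  intro B hB x
  funext k
  have h1 := hf k B hB x
  have h2 : (alt B (fun x => (fun k => f k x : Fin m → ℂ)) x) k = alt B (f k) x := by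
    simp [alt, Finset.sum_apply]
  rw [h2, h1]
  rfl

/-- Averages of differences of squares. -/
theorem avg_sq_diff_le (f : (ι → ZMod 2) → ℂ) (hn : avg (fun x => ‖f x‖ ^ 2) = 1) (i : ι)
    {θ : ℝ} (hθ : 0 < θ) :
    avg (fun x => |‖f (fl x {i})‖ ^ 2 - ‖f x‖ ^ 2|) ≤
      (1 / (2 * θ)) * avg (fun x => ‖f x - f (fl x {i})‖ ^ 2) + 2 * θ := by
  have h1 : ∀ x, |‖f (fl x {i})‖ ^ 2 - ‖f x‖ ^ 2| ≤
      (1 / (2 * θ)) * ‖f x - f (fl x {i})‖ ^ 2 + θ * (‖f x‖ ^ 2 + ‖f (fl x {i})‖ ^ 2) := by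
    intro x
    set a := ‖f x‖
    set b := ‖f (fl x {i})‖
    set c := ‖f x - f (fl x {i})‖
    have ha : 0 ≤ a := norm_nonneg _
    have hb : 0 ≤ b := norm_nonneg _
    have hc : |b - a| ≤ c := by
      rw [abs_sub_comm]
      exact abs_norm_sub_norm_le _ _
    have hc0 : 0 ≤ c := norm_nonneg _
    have h2 : |b ^ 2 - a ^ 2| ≤ c * (a + b) := by
      have : b ^ 2 - a ^ 2 = (b - a) * (a + b) := by ring
      rw [this, abs_mul, abs_of_nonneg (by positivity : 0 ≤ a + b)]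
      gcongr
    refine h2.trans ?_
    have h3 : c * (a + b) ≤ (1 / (2 * θ)) * c ^ 2 + (θ / 2) * (a + b) ^ 2 := by
      have h4 : 0 ≤ (1 / (2 * θ)) * (c - θ * (a + b)) ^ 2 := by positivity
      have h5 : (1 / (2 * θ)) * (c - θ * (a + b)) ^ 2 =
          (1 / (2 * θ)) * c ^ 2 + (θ / 2) * (a + b) ^ 2 - c * (a + b) := by
        field_simp
        ring
      linarith
    have h6 : (θ / 2) * (a + b) ^ 2 ≤ θ * (a ^ 2 + b ^ 2) := by
      nlinarith [sq_nonneg (a - b)]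
    linarith
  refine (avg_mono h1).trans ?_
  rw [avg_add, avg_const_mul, avg_const_mul, avg_add, hn]
  have h7 : avg (fun x => ‖f (fl x {i})‖ ^ 2) = 1 := by
    rw [← hn]
    unfold avg
    rw [sum_fl (fun x => ‖f x‖ ^ 2) {i}]
  rw [h7]
  linarith

/-- Half of the core estimate. -/
theorem half_core {d : ℕ} (hd : 1 ≤ d) {m : ℕ} (f : Fin m → (ι → ZMod 2) → ℂ) (u : Fin m → ℝ)
    (hu : ∀ k, 0 < u k) (hu1 : ∑ k, u k = 1)
    (hfn : ∀ k, avg (fun x => ‖f k x‖ ^ 2) = 1)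
    (hfi : ∀ i : ι, ∑ k, u k * avg (fun x => ‖f k x - f k (fl x {i})‖ ^ 2)
      ≤ 4 * (1 / (1024 * (d : ℝ) ^ 8)))
    (h : (ι → ZMod 2) → ℝ) (hD : DT ((d + 1) * (2 * d ^ 3)) h) (h01 : ∀ x, h x = 0 ∨ h x = 1) :
    ∑ k, u k * |avg (fun x => h x * ‖f k x‖ ^ 2) - avg h| ≤ 1 / 4 := by
  have hd' : (1 : ℝ) ≤ d := by exact_mod_cast hd
  have hdpos : (0 : ℝ) < d := by linarith
  set θ : ℝ := 1 / (32 * (d : ℝ) ^ 4) with hθdef
  have hθ : 0 < θ := by positivity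
  have hκ : ∀ i : ι, ∑ k, u k * avg (fun x => |‖f k (fl x {i})‖ ^ 2 - ‖f k x‖ ^ 2|)
      ≤ 2 * (2 * θ) := by
    intro i
    calc ∑ k, u k * avg (fun x => |‖f k (fl x {i})‖ ^ 2 - ‖f k x‖ ^ 2|)
        ≤ ∑ k, u k * ((1 / (2 * θ)) * avg (fun x => ‖f k x - f k (fl x {i})‖ ^ 2) + 2 * θ) := by
          refine Finset.sum_le_sum (fun k _ => ?_)
          exact mul_le_mul_of_nonneg_left (avg_sq_diff_le (f k) (hfn k) i hθ) (hu k).le
      _ = (1 / (2 * θ)) * ∑ k, u k * avg (fun x => ‖f k x - f k (fl x {i})‖ ^ 2)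
          + 2 * θ * ∑ k, u k := by
          rw [Finset.mul_sum, Finset.mul_sum, ← Finset.sum_add_distrib]
          refine Finset.sum_congr rfl (fun k _ => ?_)
          ring
      _ ≤ (1 / (2 * θ)) * (4 * (1 / (1024 * (d : ℝ) ^ 8))) + 2 * θ * 1 := by
          rw [hu1]
          gcongr
          exact hfi i
      _ = 2 * (2 * θ) := by
          rw [hθdef]
          field_simp
          ring
  have hb : ∀ x, |h x| ≤ 1 := by
    intro x
    rcases h01 x with h | h <;> simp [h]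
  have hmain := osss u (fun k => (hu k).le) (fun k x => ‖f k x‖ ^ 2) (2 * θ) (by positivity) hκ
    ((d + 1) * (2 * d ^ 3)) h hD hb
  simp only [hfn, mul_one] at hmain
  refine hmain.trans ?_
  push_cast
  rw [hθdef]
  have h8 : ((d : ℝ) + 1) * (2 * (d : ℝ) ^ 3) ≤ 4 * (d : ℝ) ^ 4 := by
    have h9 : (0 : ℝ) ≤ (d : ℝ) ^ 3 := by positivity
    nlinarith
  calc ((d : ℝ) + 1) * (2 * (d : ℝ) ^ 3) * (2 * (1 / (32 * (d : ℝ) ^ 4)))
      ≤ 4 * (d : ℝ) ^ 4 * (2 * (1 / (32 * (d : ℝ) ^ 4))) := by gcongr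
    _ = 1 / 4 := by field_simp; ring

/-- **The compatibility theorem**, in terms of finite differences. -/
theorem compat_core {d : ℕ} (hd : 1 ≤ d) {m₁ m₂ : ℕ} (f : Fin m₁ → (ι → ZMod 2) → ℂ)
    (u : Fin m₁ → ℝ) (g : Fin m₂ → (ι → ZMod 2) → ℂ) (v : Fin m₂ → ℝ)
    (hu : ∀ k, 0 < u k) (hu1 : ∑ k, u k = 1) (hv : ∀ k, 0 < v k) (hv1 : ∑ k, v k = 1)
    (hfn : ∀ k, avg (fun x => ‖f k x‖ ^ 2) = 1) (hgn : ∀ k, avg (fun x => ‖g k x‖ ^ 2) = 1)
    (hfl : ∀ k, LowDeg (d + 1) (f k)) (hgl : ∀ k, LowDeg (d + 1) (g k))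
    (hfi : ∀ i : ι, ∑ k, u k * avg (fun x => ‖f k x - f k (fl x {i})‖ ^ 2)
      ≤ 4 * (1 / (1024 * (d : ℝ) ^ 8)))
    (hgi : ∀ i : ι, ∑ k, v k * avg (fun x => ‖g k x - g k (fl x {i})‖ ^ 2)
      ≤ 4 * (1 / (1024 * (d : ℝ) ^ 8))) :
    ∃ k l x, f k x * g l x ≠ 0 := by
  by_contra hcon
  push Not at hcon
  let fE : (ι → ZMod 2) → PiLp 2 (fun _ : Fin m₁ => ℂ) := fun x => WithLp.toLp 2 (fun k => f k x)
  let gE : (ι → ZMod 2) → (Fin m₂ → ℂ) := fun x => (fun k => g k x)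
  have hfE : ∀ x k, fE x k = f k x := fun x k => rfl
  have hfg : ∀ x, fE x = 0 ∨ gE x = 0 := by
    intro x
    by_cases hfx : fE x = 0
    · exact Or.inl hfx
    · right
      have : ∃ k, f k x ≠ 0 := by
        by_contra hno
        push Not at hno
        apply hfx
        ext k
        exact hno k
      obtain ⟨k, hk⟩ := this
      funext l
      have := hcon k l x
      exact (mul_eq_zero.1 this).resolve_left hk
  have hfEl : LowDeg (d + 1) fE := by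
    have h1 := lowDeg_pi f hfl
    exact h1.map ((WithLp.linearEquiv 2 ℝ (Fin m₁ → ℂ)).symm.toLinearMap.toAddMonoidHom)
  have hgEl : LowDeg (d + 1) gE := lowDeg_pi g hgl
  obtain ⟨h, hD, h01, hf1, hg0⟩ := separation (E := PiLp 2 (fun _ : Fin m₁ => ℂ)) d (d + 1)
    hfg hfEl hgEl le_rfl
  have h1 := half_core hd f u hu hu1 hfn hfi h hD h01
  have h2 := half_core hd g v hv hv1 hgn hgi h hD h01
  have e1 : ∀ k, avg (fun x => h x * ‖f k x‖ ^ 2) = 1 := by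
    intro k
    rw [← hfn k]
    congr 1
    funext x
    by_cases hfx : f k x = 0
    · simp [hfx]
    · have : fE x ≠ 0 := fun h0 => hfx (by rw [← hfE x k, h0]; rfl)
      rw [hf1 x this, one_mul]
  have e2 : ∀ k, avg (fun x => h x * ‖g k x‖ ^ 2) = 0 := by
    intro k
    have : (fun x => h x * ‖g k x‖ ^ 2) = fun _ => 0 := by
      funext x
      by_cases hgx : g k x = 0
      · simp [hgx]
      · have : gE x ≠ 0 := fun h0 => hgx (congrFun h0 k)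
        rw [hg0 x this, zero_mul]
    rw [this, avg_const]
  simp only [e1, e2, zero_sub, abs_neg] at h1 h2
  rw [← Finset.sum_mul, hu1, one_mul] at h1
  rw [← Finset.sum_mul, hv1, one_mul] at h2
  rw [abs_le] at h1 h2
  linarith [h1.1, h1.2, h2.1, h2.2]

end Pool.Agent.Lib.MP_5d599c_lc
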