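import Mathlib

/-!
Finite differences on the Boolean cube `ι → ZMod 2`.
-/

open Finset

namespace Pool.Agent.Lib.MP_5d599c_lc

variable {ι : Type*} [DecidableEq ι]

/-- Flip the coordinates in `S`. -/
def fl (x : ι → ZMod 2) (S : Finset ι) : ι → ZMod 2 := fun i => if i ∈ S then x i + 1 else x i

theorem zmod2_add_one_add_one (a : ZMod 2) : a + 1 + 1 = a := by
  revert a; decide

theorem zmod2_ne {a b : ZMod 2} (h : a ≠ b) : a + 1 = b := by
  revert a b; decide

theorem zmod2_add_one_ne (a : ZMod 2) : a + 1 ≠ a := by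
  revert a; decide

@[simp] theorem fl_empty (x : ι → ZMod 2) : fl x ∅ = x := by
  funext i; simp [fl]

theorem fl_comm (x : ι → ZMod 2) (S T : Finset ι) : fl (fl x S) T = fl (fl x T) S := by
  funext i
  by_cases h1 : i ∈ S <;> by_cases h2 : i ∈ T <;> simp [fl, h1, h2]

theorem fl_union (x : ι → ZMod 2) {S T : Finset ι} (h : Disjoint S T) :
    fl x (S ∪ T) = fl (fl x S) T := by
  funext i
  have hd : i ∈ S → i ∉ T := fun h1 h2 => Finset.disjoint_left.1 h h1 h2
  by_cases h1 : i ∈ S <;> by_cases h2 : i ∈ T <;> simp_all [fl]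

theorem fl_insert (x : ι → ZMod 2) {S : Finset ι} {i : ι} (h : i ∉ S) :
    fl x (insert i S) = fl (fl x {i}) S := by
  have : insert i S = {i} ∪ S := by simp
  rw [this, fl_union]
  simpa using h

theorem fl_fl_self (x : ι → ZMod 2) (S : Finset ι) : fl (fl x S) S = x := by
  funext i
  by_cases h1 : i ∈ S <;> simp [fl, h1, zmod2_add_one_add_one]

theorem exists_fl [Fintype ι] (x y : ι → ZMod 2) : ∃ S : Finset ι, fl x S = y ∧
    ∀ i, i ∈ S ↔ x i ≠ y i := by
  refine ⟨Finset.univ.filter (fun i => x i ≠ y i), ?_, by simp⟩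
  funext i
  by_cases h : x i = y i
  · simp [fl, h]
  · simp only [fl, Finset.mem_filter, Finset.mem_univ, true_and, ne_eq, h, not_false_eq_true,
      if_true]
    exact zmod2_ne h

variable {E : Type*} [AddCommGroup E]

/-- The alternating sum of `h` over the subcube through `x` with directions `B`. -/
def alt (B : Finset ι) (h : (ι → ZMod 2) → E) (x : ι → ZMod 2) : E :=
  ∑ S ∈ B.powerset, (-1 : ℤ) ^ S.card • h (fl x S)

theorem alt_empty (h : (ι → ZMod 2) → E) (x : ι → ZMod 2) : alt ∅ h x = h x := by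
  simp [alt]

theorem alt_insert {i : ι} {B : Finset ι} (hi : i ∉ B) (h : (ι → ZMod 2) → E)
    (x : ι → ZMod 2) : alt (insert i B) h x = alt B h x - alt B h (fl x {i}) := by
  unfold alt
  rw [Finset.sum_powerset_insert hi, sub_eq_add_neg, ← Finset.sum_neg_distrib]
  congr 1
  refine Finset.sum_congr rfl (fun S hS => ?_)
  have hiS : i ∉ S := fun h' => hi (Finset.mem_powerset.1 hS h')
  rw [Finset.card_insert_of_notMem hiS, fl_insert x hiS, pow_succ]
  simp

theorem alt_fl (B T : Finset ι) (h : (ι → ZMod 2) → E) (x : ι → ZMod 2) :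
    alt B h (fl x T) = alt B (fun y => h (fl y T)) x := by
  unfold alt
  refine Finset.sum_congr rfl (fun S _ => ?_)
  rw [fl_comm]

theorem alt_insert' {i : ι} {B : Finset ι} (hi : i ∉ B) (h : (ι → ZMod 2) → E)
    (x : ι → ZMod 2) :
    alt (insert i B) h x = alt B (fun y => h y - h (fl y {i})) x := by
  rw [alt_insert hi, alt_fl]
  unfold alt
  rw [← Finset.sum_sub_distrib]
  refine Finset.sum_congr rfl (fun S _ => ?_)
  rw [smul_sub]

/-- If `h` does not depend on the coordinate `i ∈ B`, the alternating sum vanishes. -/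
theorem alt_eq_zero_of_indep {i : ι} {B : Finset ι} (hi : i ∈ B) (h : (ι → ZMod 2) → E)
    (hind : ∀ y, h (fl y {i}) = h y) (x : ι → ZMod 2) : alt B h x = 0 := by
  obtain ⟨B', hB', rfl⟩ : ∃ B', i ∉ B' ∧ insert i B' = B :=
    ⟨B.erase i, Finset.notMem_erase i B, Finset.insert_erase hi⟩
  rw [alt_insert' hB']
  simp [hind, alt]

/-- `h` has degree less than `e`. -/
def LowDeg (e : ℕ) (h : (ι → ZMod 2) → E) : Prop :=
  ∀ B : Finset ι, e ≤ B.card → ∀ x, alt B h x = 0

theorem LowDeg.mono {e e' : ℕ} (hee : e ≤ e') {h : (ι → ZMod 2) → E} (hl : LowDeg e h) :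
    LowDeg e' h := fun B hB x => hl B (hee.trans hB) x

theorem LowDeg.map {F : Type*} [AddCommGroup F] {e : ℕ} {h : (ι → ZMod 2) → E}
    (hl : LowDeg e h) (L : E →+ F) : LowDeg e (fun x => L (h x)) := by
  intro B hB x
  have := hl B hB x
  have h2 : alt B (fun x => L (h x)) x = L (alt B h x) := by
    unfold alt
    rw [map_sum]
    refine Finset.sum_congr rfl (fun S _ => ?_)
    rw [map_zsmul]
  rw [h2, this, map_zero]

theorem piecewise_fl (C S : Finset ι) (ρ x : ι → ZMod 2) (h : Disjoint C S) :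
    C.piecewise ρ (fl x S) = fl (C.piecewise ρ x) S := by
  funext i
  have hd : i ∈ C → i ∉ S := fun h1 h2 => Finset.disjoint_left.1 h h1 h2
  by_cases h1 : i ∈ C <;> by_cases h2 : i ∈ S <;> simp_all [fl, Finset.piecewise]

theorem alt_piecewise_disjoint {B C : Finset ι} (hBC : Disjoint C B) (h : (ι → ZMod 2) → E)
    (ρ x : ι → ZMod 2) :
    alt B (fun y => h (C.piecewise ρ y)) x = alt B h (C.piecewise ρ x) := by
  unfold alt
  refine Finset.sum_congr rfl (fun S hS => ?_)
  rw [← piecewise_fl C S ρ x (hBC.mono_right (Finset.mem_powerset.1 hS))]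

theorem alt_piecewise_of_mem {B C : Finset ι} {i : ι} (hiB : i ∈ B) (hiC : i ∈ C)
    (h : (ι → ZMod 2) → E) (ρ x : ι → ZMod 2) :
    alt B (fun y => h (C.piecewise ρ y)) x = 0 := by
  refine alt_eq_zero_of_indep hiB _ (fun y => ?_) x
  congr 1
  funext j
  by_cases hj : j ∈ C
  · simp [Finset.piecewise, hj]
  · have : j ≠ i := by rintro rfl; exact hj hiC
    simp [Finset.piecewise, hj, fl, this]

theorem LowDeg.piecewise {e : ℕ} {h : (ι → ZMod 2) → E} (hl : LowDeg e h) (C : Finset ι)
    (ρ : ι → ZMod 2) : LowDeg e (fun y => h (C.piecewise ρ y)) := by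
  intro B hB x
  by_cases hBC : Disjoint C B
  · rw [alt_piecewise_disjoint hBC]; exact hl B hB _
  · rw [Finset.not_disjoint_iff] at hBC
    obtain ⟨i, hiC, hiB⟩ := hBC
    exact alt_piecewise_of_mem hiB hiC h ρ x

/-- The top alternating sums are invariant under flips outside of `B`. -/
theorem alt_top_fl {e : ℕ} {h : (ι → ZMod 2) → E} (hl : LowDeg (e + 1) h) {B : Finset ι}
    (hB : B.card = e) (T : Finset ι) (hT : Disjoint B T) (x : ι → ZMod 2) :
    alt B h (fl x T) = alt B h x := by
  induction T using Finset.induction_on generalizing x with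
  | empty => simp
  | insert i T hi ih =>
    rw [Finset.disjoint_insert_right] at hT
    rw [fl_insert x hi, ih hT.2]
    have h1 := hl (insert i B) (by rw [Finset.card_insert_of_notMem hT.1, hB]) x
    rw [alt_insert hT.1, sub_eq_zero] at h1
    exact h1.symm

/-- If `h` has degree at most `e` and vanishes on a subcube with fixed coordinates `C`, then fixing
the coordinates in `C` in any way makes the degree drop. -/
theorem LowDeg.drop [Fintype ι] {e : ℕ} {h : (ι → ZMod 2) → E} (hl : LowDeg (e + 1) h)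
    (C : Finset ι) (x0 : ι → ZMod 2) (hzero : ∀ y, h (C.piecewise x0 y) = 0) (ρ : ι → ZMod 2) :
    LowDeg e (fun y => h (C.piecewise ρ y)) := by
  intro B hB x
  rcases hB.lt_or_eq with hlt | heq
  · exact hl.piecewise C ρ B hlt x
  · by_cases hBC : Disjoint C B
    · rw [alt_piecewise_disjoint hBC]
      obtain ⟨S, hS, hSmem⟩ := exists_fl (C.piecewise ρ x) (C.piecewise x0 x)
      have hSB : Disjoint B S := by
        rw [Finset.disjoint_left]
        intro i hiB hiS
        have h1 := (hSmem i).1 hiS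
        have h2 : i ∉ C := fun hiC => Finset.disjoint_left.1 hBC hiC hiB
        simp [Finset.piecewise, h2] at h1
      have h3 := alt_top_fl hl heq.symm S hSB (C.piecewise ρ x)
      rw [hS] at h3
      rw [← h3, ← alt_piecewise_disjoint hBC]
      simp [alt, hzero]
    · rw [Finset.not_disjoint_iff] at hBC
      obtain ⟨i, hiC, hiB⟩ := hBC
      exact alt_piecewise_of_mem hiB hiC h ρ x

/-- Minimal nonvanishing blocks are small. -/
theorem LowDeg.card_lt_of_minimal {e : ℕ} {h : (ι → ZMod 2) → E} (hl : LowDeg e h)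
    (x : ι → ZMod 2) (B : Finset ι) (hB : h (fl x B) ≠ 0)
    (hmin : ∀ S ⊂ B, h (fl x S) = 0) : B.card < e := by
  by_contra hcon
  push Not at hcon
  have h1 := hl B hcon x
  unfold alt at h1
  rw [Finset.sum_eq_single_of_mem B (Finset.mem_powerset_self B)] at h1
  · apply hB
    rcases neg_one_pow_eq_or ℤ B.card with h2 | h2
    · rw [h2, one_smul] at h1; exact h1
    · rw [h2, neg_smul, one_smul, neg_eq_zero] at h1; exact h1
  · intro S hS hne
    rw [hmin S ((Finset.mem_powerset.1 hS).ssubset_of_ne hne), smul_zero]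

end Pool.Agent.Lib.MP_5d599c_lc
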