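import Pool.Agent.Lib.MP_5d599c_lc.Core

/-!
Translation between characters of `(ZMod 2)^N` and finite differences.
-/

open Finset

namespace Pool.Agent.Lib.MP_5d599c_lc

variable {N : ℕ}

/-- The character of the cube given by a tuple of characters. -/
noncomputable def ch (χ : Fin N → AddChar (ZMod 2) ℂ) (x : Fin N → ZMod 2) : ℂ := ∏ i, χ i (x i)

/-- Unnormalized Fourier coefficient. -/
noncomputable def fc (h : (Fin N → ZMod 2) → ℂ) (χ : Fin N → AddChar (ZMod 2) ℂ) : ℂ :=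
  ∑ x, h x * star (ch χ x)

theorem ch_fl (χ : Fin N → AddChar (ZMod 2) ℂ) (x : Fin N → ZMod 2) (i : Fin N) :
    ch χ (fl x {i}) = ch χ x * χ i 1 := by
  unfold ch
  rw [← Finset.mul_prod_erase Finset.univ _ (Finset.mem_univ i),
    ← Finset.mul_prod_erase Finset.univ (fun j => χ j (x j)) (Finset.mem_univ i)]
  have h1 : (χ i) (fl x {i} i) = χ i (x i) * χ i 1 := by
    simp [fl, AddChar.map_add_eq_mul]
  have h2 : ∏ j ∈ Finset.univ.erase i, (χ j) (fl x {i} j) = ∏ j ∈ Finset.univ.erase i, χ j (x j) := by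
    refine Finset.prod_congr rfl (fun j hj => ?_)
    have : j ≠ i := Finset.ne_of_mem_erase hj
    simp [fl, this]
  rw [h1, h2]
  ring

theorem kernel (x y : Fin N → ZMod 2) :
    ∑ χ : Fin N → AddChar (ZMod 2) ℂ, ch χ x * star (ch χ y) = if x = y then (2 : ℂ) ^ N else 0 := by
  classical
  have h1 : ∀ χ : Fin N → AddChar (ZMod 2) ℂ, ch χ x * star (ch χ y) =
      ∏ i, χ i (x i - y i) := by
    intro χ
    unfold ch
    rw [star_prod, ← Finset.prod_mul_distrib]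
    refine Finset.prod_congr rfl (fun i _ => ?_)
    rw [sub_eq_add_neg, AddChar.map_add_eq_mul, AddChar.map_neg_eq_conj]
    rfl
  simp only [h1]
  have h2 : ∑ χ : Fin N → AddChar (ZMod 2) ℂ, ∏ i, χ i (x i - y i) =
      ∏ i : Fin N, ∑ ψ : AddChar (ZMod 2) ℂ, ψ (x i - y i) := by
    rw [Finset.prod_univ_sum]
    simp
  rw [h2]
  have h3 : ∀ i : Fin N, ∑ ψ : AddChar (ZMod 2) ℂ, ψ (x i - y i) = if x i = y i then 2 else 0 := by
    intro i
    rw [AddChar.sum_apply_eq_ite]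
    simp [sub_eq_zero]
  simp only [h3]
  by_cases hxy : x = y
  · simp [hxy]
  · rw [if_neg hxy]
    obtain ⟨i, hi⟩ := Function.ne_iff.1 hxy
    exact Finset.prod_eq_zero (Finset.mem_univ i) (if_neg hi)

theorem inversion (h : (Fin N → ZMod 2) → ℂ) (x : Fin N → ZMod 2) :
    ∑ χ : Fin N → AddChar (ZMod 2) ℂ, fc h χ * ch χ x = (2 : ℂ) ^ N * h x := by
  unfold fc
  simp only [Finset.sum_mul]
  rw [Finset.sum_comm]
  have h1 : ∀ y, ∑ χ : Fin N → AddChar (ZMod 2) ℂ, h y * star (ch χ y) * ch χ x =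
      h y * (if x = y then (2 : ℂ) ^ N else 0) := by
    intro y
    rw [← kernel x y, Finset.mul_sum]
    refine Finset.sum_congr rfl (fun χ _ => ?_)
    ring
  simp only [h1]
  simp [mul_comm]

theorem parseval (h : (Fin N → ZMod 2) → ℂ) :
    ∑ χ : Fin N → AddChar (ZMod 2) ℂ, ‖fc h χ‖ ^ 2 = (2 : ℝ) ^ N * ∑ x, ‖h x‖ ^ 2 := by
  have h1 : ∀ z : ℂ, ((‖z‖ ^ 2 : ℝ) : ℂ) = z * star z := by
    intro z
    rw [Complex.star_def, Complex.mul_conj, Complex.normSq_eq_norm_sq]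
  have key : ((∑ χ : Fin N → AddChar (ZMod 2) ℂ, ‖fc h χ‖ ^ 2 : ℝ) : ℂ) =
      (((2 : ℝ) ^ N * ∑ x, ‖h x‖ ^ 2 : ℝ) : ℂ) := by
    push_cast
    have h2 : ∀ χ : Fin N → AddChar (ZMod 2) ℂ, ((‖fc h χ‖ : ℂ)) ^ 2 =
        ∑ y, (fc h χ * ch χ y) * star (h y) := by
      intro χ
      have := h1 (fc h χ)
      push_cast at this
      rw [this]
      conv_lhs => rw [show star (fc h χ) = ∑ y, star (h y) * ch χ y by
        unfold fc
        rw [star_sum]
        refine Finset.sum_congr rfl (fun y _ => ?_)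
        simp]
      rw [Finset.mul_sum]
      refine Finset.sum_congr rfl (fun y _ => ?_)
      ring
    simp only [h2]
    rw [Finset.sum_comm, Finset.mul_sum]
    refine Finset.sum_congr rfl (fun y _ => ?_)
    rw [← Finset.sum_mul, inversion]
    have := h1 (h y)
    push_cast at this
    rw [this]
    ring
  exact_mod_cast key

/-- Low Fourier degree implies vanishing alternating sums. -/
theorem lowDeg_of_fourier {d : ℕ} (h : (Fin N → ZMod 2) → ℂ)
    (hh : ∀ χ : Fin N → AddChar (ZMod 2) ℂ, d < {i | χ i ≠ 1}.ncard → fc h χ = 0) :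
    LowDeg (d + 1) h := by
  classical
  intro B hB x
  have h1 : ∀ y, h y = (1 / (2 : ℂ) ^ N) * ∑ χ : Fin N → AddChar (ZMod 2) ℂ, fc h χ * ch χ y := by
    intro y
    rw [inversion]
    field_simp
  have h2 : alt B h x = (1 / (2 : ℂ) ^ N) *
      ∑ χ : Fin N → AddChar (ZMod 2) ℂ, fc h χ * alt B (ch χ) x := by
    unfold alt
    simp only [zsmul_eq_mul]
    have h3 : ∀ S ∈ B.powerset, (((-1 : ℤ) ^ S.card : ℤ) : ℂ) * h (fl x S) =
        (1 / (2 : ℂ) ^ N) * ∑ χ : Fin N → AddChar (ZMod 2) ℂ,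
          fc h χ * ((((-1 : ℤ) ^ S.card : ℤ) : ℂ) * ch χ (fl x S)) := by
      intro S _
      rw [h1 (fl x S), Finset.mul_sum, Finset.mul_sum, Finset.mul_sum]
      refine Finset.sum_congr rfl (fun χ _ => ?_)
      ring
    rw [Finset.sum_congr rfl h3, ← Finset.mul_sum, Finset.sum_comm]
    congr 1
    refine Finset.sum_congr rfl (fun χ _ => ?_)
    rw [Finset.mul_sum]
  rw [h2]
  have h4 : ∀ χ : Fin N → AddChar (ZMod 2) ℂ, fc h χ * alt B (ch χ) x = 0 := by
    intro χ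
    by_cases hχ : d < {i | χ i ≠ 1}.ncard
    · rw [hh χ hχ, zero_mul]
    · have : ∃ i ∈ B, χ i = 1 := by
        by_contra hno
        push Not at hno
        apply hχ
        have h5 : (B : Set (Fin N)) ⊆ {i | χ i ≠ 1} := fun i hi => hno i hi
        have h6 := Set.ncard_le_ncard h5 (Set.toFinite _)
        rw [Set.ncard_coe_finset] at h6
        omega
      obtain ⟨i, hiB, hi⟩ := this
      rw [alt_eq_zero_of_indep hiB (ch χ) (fun y => by rw [ch_fl, hi]; simp) x, mul_zero]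
  simp [h4]

theorem apply_one_of_ne {ψ : AddChar (ZMod 2) ℂ} (hψ : ψ ≠ 1) : ψ 1 = -1 := by
  have h1 : ψ 1 * ψ 1 = 1 := by
    rw [← AddChar.map_add_eq_mul]
    have : (1 : ZMod 2) + 1 = 0 := by decide
    rw [this, AddChar.map_zero_eq_one]
  have h2 : ψ 1 ≠ 1 := by
    intro h
    apply hψ
    ext a
    have ha : a = 0 ∨ a = 1 := by revert a; decide
    rcases ha with ha | ha
    · rw [ha]; simp
    · rw [ha, h]; simp
  have h3 : (ψ 1 - 1) * (ψ 1 + 1) = 0 := by linear_combination h1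
  rcases mul_eq_zero.1 h3 with h | h
  · exact absurd (sub_eq_zero.1 h) h2
  · exact eq_neg_of_add_eq_zero_left h

theorem fc_diff (h : (Fin N → ZMod 2) → ℂ) (i : Fin N) (χ : Fin N → AddChar (ZMod 2) ℂ) :
    fc (fun x => h x - h (fl x {i})) χ = if χ i ≠ 1 then 2 * fc h χ else 0 := by
  have h1 : fc (fun x => h (fl x {i})) χ = star (χ i 1) * fc h χ := by
    unfold fc
    rw [← sum_fl (fun x => h (fl x {i}) * star (ch χ x)) {i}, Finset.mul_sum]
    refine Finset.sum_congr rfl (fun x _ => ?_)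
    rw [fl_fl_self, ch_fl, star_mul']
    ring
  have h2 : fc (fun x => h x - h (fl x {i})) χ = fc h χ - fc (fun x => h (fl x {i})) χ := by
    unfold fc
    rw [← Finset.sum_sub_distrib]
    refine Finset.sum_congr rfl (fun x _ => ?_)
    ring
  rw [h2, h1]
  by_cases hχ : χ i = 1
  · simp [hχ]
  · rw [if_pos hχ, apply_one_of_ne hχ]
    simp
    ring

/-- Influence in terms of differences. -/
theorem influence_eq (h : (Fin N → ZMod 2) → ℂ) (i : Fin N) :
    (∑ᶠ (χ : Fin N → AddChar (ZMod 2) ℂ) (_ : χ i ≠ 1),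
          ‖(fc h χ) / (2 : ℂ) ^ N‖ ^ 2) =
      (1 / 4) * avg (fun x => ‖h x - h (fl x {i})‖ ^ 2) := by
  classical
  have h1 : (∑ᶠ (χ : Fin N → AddChar (ZMod 2) ℂ) (_ : χ i ≠ 1),
          ‖(fc h χ) / (2 : ℂ) ^ N‖ ^ 2) =
      ∑ χ : Fin N → AddChar (ZMod 2) ℂ, if χ i ≠ 1 then ‖(fc h χ) / (2 : ℂ) ^ N‖ ^ 2 else 0 := by
    rw [← finsum_eq_sum_of_fintype]
    refine finsum_congr (fun χ => ?_)
    rw [finsum_eq_if]
  rw [h1]
  have h2 : ∀ χ : Fin N → AddChar (ZMod 2) ℂ,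
      (if χ i ≠ 1 then ‖(fc h χ) / (2 : ℂ) ^ N‖ ^ 2 else 0) =
      (1 / (4 * (2 : ℝ) ^ N * (2 : ℝ) ^ N)) * ‖fc (fun x => h x - h (fl x {i})) χ‖ ^ 2 := by
    intro χ
    rw [fc_diff]
    by_cases hχ : χ i = 1
    · simp [hχ]
    · rw [if_pos hχ, if_pos hχ, norm_div, norm_mul, norm_pow]
      simp only [Complex.norm_ofNat]
      field_simp
      ring
  simp only [h2]
  rw [← Finset.mul_sum, parseval]
  unfold avg
  have h3 : (Fintype.card (Fin N → ZMod 2) : ℝ) = (2 : ℝ) ^ N := by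
    rw [Fintype.card_fun]
    simp
  rw [h3]
  field_simp

end Pool.Agent.Lib.MP_5d599c_lc
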