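import Pool.Agent.Lib.MP_5d599c_lc.Tree

/-!
A covariance inequality for decision trees, and the core of the compatibility theorem.
-/

open Finset

namespace Pool.Agent.Lib.MP_5d599c_lc

variable {ι : Type*} [DecidableEq ι] [Fintype ι]

/-- Average over the cube. -/
noncomputable def avg (F : (ι → ZMod 2) → ℝ) : ℝ := (∑ x, F x) / (Fintype.card (ι → ZMod 2) : ℝ)

theorem card_pos_cube : (0 : ℝ) < (Fintype.card (ι → ZMod 2) : ℝ) := by
  exact_mod_cast Fintype.card_pos

theorem avg_add (F G : (ι → ZMod 2) → ℝ) : avg (fun x => F x + G x) = avg F + avg G := by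
  simp [avg, Finset.sum_add_distrib, add_div]

theorem avg_sub (F G : (ι → ZMod 2) → ℝ) : avg (fun x => F x - G x) = avg F - avg G := by
  simp [avg, Finset.sum_sub_distrib, sub_div]

theorem avg_const_mul (c : ℝ) (F : (ι → ZMod 2) → ℝ) : avg (fun x => c * F x) = c * avg F := by
  simp [avg, ← Finset.mul_sum, mul_div_assoc]

theorem avg_const (c : ℝ) : avg (fun _ : ι → ZMod 2 => c) = c := by
  have := card_pos_cube (ι := ι)
  simp only [avg, Finset.sum_const, Finset.card_univ, nsmul_eq_mul]
  field_simp

theorem avg_mono {F G : (ι → ZMod 2) → ℝ} (h : ∀ x, F x ≤ G x) : avg F ≤ avg G := by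
  unfold avg
  have := card_pos_cube (ι := ι)
  gcongr
  exact h _

theorem abs_avg_le (F : (ι → ZMod 2) → ℝ) : |avg F| ≤ avg (fun x => |F x|) := by
  unfold avg
  have := card_pos_cube (ι := ι)
  rw [abs_div, abs_of_pos this]
  gcongr
  exact Finset.abs_sum_le_sum_abs _ _

theorem sum_fl {M : Type*} [AddCommMonoid M] (F : (ι → ZMod 2) → M) (S : Finset ι) :
    ∑ x, F (fl x S) = ∑ x, F x := by
  let e : (ι → ZMod 2) ≃ (ι → ZMod 2) :=
    ⟨fun x => fl x S, fun x => fl x S, fun x => fl_fl_self x S, fun x => fl_fl_self x S⟩
  exact e.sum_comp F

omit [Fintype ι] in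
theorem sum_update {M : Type*} [AddCommMonoid M] (F : (ι → ZMod 2) → M) (x : ι → ZMod 2) (i : ι) :
    ∑ b : ZMod 2, F (Function.update x i b) = F x + F (fl x {i}) := by
  have h01 : x i = 0 ∨ x i = 1 := by
    generalize x i = a
    revert a; decide
  have hsum : ∑ b : ZMod 2, F (Function.update x i b) =
      F (Function.update x i 0) + F (Function.update x i 1) := Fin.sum_univ_two _
  rw [hsum]
  rcases h01 with h | h
  · have h1 : Function.update x i 0 = x := by rw [← h]; exact Function.update_eq_self i x
    have h2 : Function.update x i 1 = fl x {i} := by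
      funext j
      by_cases hj : j = i
      · subst hj; simp [fl, h]
      · simp [fl, hj]
    rw [h1, h2]
  · have h1 : Function.update x i 1 = x := by rw [← h]; exact Function.update_eq_self i x
    have h2 : Function.update x i 0 = fl x {i} := by
      funext j
      by_cases hj : j = i
      · subst hj
        simp only [Function.update_self, fl, Finset.mem_singleton, if_true, h]
        decide
      · simp [fl, hj]
    rw [h1, h2, add_comm]

theorem avg_update (F : (ι → ZMod 2) → ℝ) (i : ι) :
    avg F = (1 / 2) * ∑ b : ZMod 2, avg (fun x => F (Function.update x i b)) := by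
  unfold avg
  rw [← Finset.sum_div, Finset.sum_comm]
  simp only [sum_update F, Finset.sum_add_distrib, sum_fl]
  ring

/-- **Covariance inequality for decision trees**, for a weighted family of functions. -/
theorem osss {K : Type*} [Fintype K] (u : K → ℝ) (hu : ∀ k, 0 ≤ u k)
    (φ : K → (ι → ZMod 2) → ℝ) (κ : ℝ) (hκ0 : 0 ≤ κ)
    (hκ : ∀ i : ι, ∑ k, u k * avg (fun x => |φ k (fl x {i}) - φ k x|) ≤ 2 * κ) (n : ℕ) :
    ∀ h : (ι → ZMod 2) → ℝ, DT n h → (∀ x, |h x| ≤ 1) →
      ∑ k, u k * |avg (fun x => h x * φ k x) - avg h * avg (φ k)| ≤ n * κ := by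
  have hconst : ∀ h : (ι → ZMod 2) → ℝ, (∀ x y, h x = h y) →
      ∑ k, u k * |avg (fun x => h x * φ k x) - avg h * avg (φ k)| = 0 := by
    intro h hc
    refine Finset.sum_eq_zero (fun k _ => ?_)
    have h1 : avg (fun x => h x * φ k x) = h 0 * avg (φ k) := by
      rw [← avg_const_mul]
      congr 1
      funext x
      rw [hc x 0]
    have h2 : avg h = h 0 := by
      have : h = fun _ => h 0 := by funext x; exact hc x 0
      rw [this, avg_const]
    rw [h1, h2]
    simp
  induction n with
  | zero =>
    intro h hD _
    rw [hconst h hD]
    simp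
  | succ n ih =>
    intro h hD hb
    rcases hD with hD | ⟨i, hi⟩
    · rw [hconst h hD]
      positivity
    · let hb' : ZMod 2 → (ι → ZMod 2) → ℝ := fun b x => h (Function.update x i b)
      have ih' : ∀ b, ∑ k, u k * |avg (fun x => hb' b x * φ k x) - avg (hb' b) * avg (φ k)|
          ≤ n * κ := fun b => ih (hb' b) (hi b) (fun x => hb _)
      -- pointwise estimate for each k
      have hk : ∀ k, |avg (fun x => h x * φ k x) - avg h * avg (φ k)| ≤
          (1 / 2) * avg (fun x => |φ k (fl x {i}) - φ k x|) +
          (1 / 2) * ∑ b : ZMod 2, |avg (fun x => hb' b x * φ k x) - avg (hb' b) * avg (φ k)| := by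
        intro k
        have e1 : avg (fun x => h x * φ k x) =
            (1 / 2) * ∑ b : ZMod 2, avg (fun x => hb' b x * φ k (Function.update x i b)) :=
          avg_update (fun x => h x * φ k x) i
        have e2 : avg h = (1 / 2) * ∑ b : ZMod 2, avg (hb' b) := avg_update h i
        have e3 : avg (fun x => h x * φ k x) - avg h * avg (φ k) =
            (1 / 2) * ∑ b : ZMod 2, avg (fun x => hb' b x * (φ k (Function.update x i b) - φ k x)) +
            (1 / 2) * ∑ b : ZMod 2, (avg (fun x => hb' b x * φ k x) - avg (hb' b) * avg (φ k)) := by
          rw [e1, e2]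
          have e4 : ∀ b, avg (fun x => hb' b x * (φ k (Function.update x i b) - φ k x)) =
              avg (fun x => hb' b x * φ k (Function.update x i b)) -
              avg (fun x => hb' b x * φ k x) := by
            intro b
            rw [← avg_sub]
            congr 1
            funext x
            ring
          simp only [e4, Finset.sum_sub_distrib, ← Finset.sum_mul]
          ring
        rw [e3]
        refine (abs_add_le _ _).trans ?_
        rw [abs_mul, abs_mul, abs_of_pos (by norm_num : (0 : ℝ) < 1 / 2)]
        refine add_le_add ?_ ?_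
        · have h5 : |∑ b : ZMod 2, avg (fun x => hb' b x * (φ k (Function.update x i b) - φ k x))|
              ≤ avg (fun x => |φ k (fl x {i}) - φ k x|) := by
            calc |∑ b : ZMod 2, avg (fun x => hb' b x * (φ k (Function.update x i b) - φ k x))|
                ≤ ∑ b : ZMod 2,
                  |avg (fun x => hb' b x * (φ k (Function.update x i b) - φ k x))| :=
                  Finset.abs_sum_le_sum_abs _ _
              _ ≤ ∑ b : ZMod 2, avg (fun x => |φ k (Function.update x i b) - φ k x|) := by
                  refine Finset.sum_le_sum (fun b _ => ?_)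
                  refine (abs_avg_le _).trans (avg_mono (fun x => ?_))
                  rw [abs_mul]
                  have := hb (Function.update x i b)
                  calc |hb' b x| * |φ k (Function.update x i b) - φ k x|
                      ≤ 1 * |φ k (Function.update x i b) - φ k x| := by gcongr
                    _ = _ := one_mul _
              _ = avg (fun x => |φ k (fl x {i}) - φ k x|) := by
                  unfold avg
                  rw [← Finset.sum_div, Finset.sum_comm]
                  congr 1
                  refine Finset.sum_congr rfl (fun x _ => ?_)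
                  rw [sum_update (fun y => |φ k y - φ k x|) x i]
                  simp
          linarith
        · have h6 := Finset.abs_sum_le_sum_abs
            (fun b : ZMod 2 => avg (fun x => hb' b x * φ k x) - avg (hb' b) * avg (φ k))
            Finset.univ
          linarith
      calc ∑ k, u k * |avg (fun x => h x * φ k x) - avg h * avg (φ k)|
          ≤ ∑ k, u k * ((1 / 2) * avg (fun x => |φ k (fl x {i}) - φ k x|) +
          (1 / 2) * ∑ b : ZMod 2, |avg (fun x => hb' b x * φ k x) - avg (hb' b) * avg (φ k)|) := by
            refine Finset.sum_le_sum (fun k _ => ?_)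
            exact mul_le_mul_of_nonneg_left (hk k) (hu k)
        _ = (1 / 2) * ∑ k, u k * avg (fun x => |φ k (fl x {i}) - φ k x|) +
            (1 / 2) * ∑ b : ZMod 2, ∑ k, u k * |avg (fun x => hb' b x * φ k x) -
              avg (hb' b) * avg (φ k)| := by
            rw [Finset.sum_comm]
            simp only [Finset.mul_sum]
            rw [← Finset.sum_add_distrib]
            refine Finset.sum_congr rfl (fun k _ => ?_)
            rw [mul_add, Finset.mul_sum]
            congr 1
            · ring
            · refine Finset.sum_congr rfl (fun b _ => ?_)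
              ring
        _ ≤ (1 / 2) * (2 * κ) + (1 / 2) * ∑ _b : ZMod 2, n * κ := by
            gcongr
            · exact hκ i
            · exact ih' _
        _ = ((n + 1 : ℕ) : ℝ) * κ := by
            simp only [Finset.sum_const, Finset.card_univ, ZMod.card, nsmul_eq_mul]
            push_cast
            ring

end Pool.Agent.Lib.MP_5d599c_lc
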